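import Pool.Agent.H25.Bic

namespace Pool.Agent.Results.MP_8f6629_co.AllK

open Pool.Agent.H25

/-- The entry of `σ` at position `p` in one-line form (positions start at `0`). -/
def entry {n : ℕ} (σ : Equiv.Perm (Fin n)) (p : ℕ) : ℕ := if h : p < n then (σ ⟨p, h⟩).1 else 0

/-- `σ` has a factor made of `k` consecutive pairwise order-isomorphic blocks of length
`l ≥ 2`, starting at position `s`. -/
def HasPower (k : ℕ) {n : ℕ} (σ : Equiv.Perm (Fin n)) : Prop :=
  ∃ s l, 2 ≤ l ∧ s + k * l ≤ n ∧ ∀ r < k, ∀ r' < k, ∀ a < l, ∀ b < l,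
    (entry σ (s + r * l + a) < entry σ (s + r * l + b) ↔
      entry σ (s + r' * l + a) < entry σ (s + r' * l + b))

/-- The first `n` entries of `τ` are order-isomorphic to `σ`. -/
def RightExt {n : ℕ} (σ : Equiv.Perm (Fin n)) (τ : Equiv.Perm (Fin (n + 1))) : Prop :=
  ∀ p q : Fin n, τ p.castSucc < τ q.castSucc ↔ σ p < σ q

/-- The last `n` entries of `τ` are order-isomorphic to `σ`. -/
def LeftExt {n : ℕ} (σ : Equiv.Perm (Fin n)) (τ : Equiv.Perm (Fin (n + 1))) : Prop :=
  ∀ p q : Fin n, τ p.succ < τ q.succ ↔ σ p < σ q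

def Bicrucial (k : ℕ) {n : ℕ} (σ : Equiv.Perm (Fin n)) : Prop :=
  ¬ HasPower k σ ∧ (∀ τ, LeftExt σ τ → HasPower k τ) ∧ (∀ τ, RightExt σ τ → HasPower k τ)

lemma entry_ne {n : ℕ} (σ : Equiv.Perm (Fin n)) (p q : ℕ) (hp : p < n) (hq : q < n)
    (h : p ≠ q) : entry σ p ≠ entry σ q := by
  simp only [entry, dif_pos hp, dif_pos hq]
  intro e
  exact h (congrArg Fin.val (σ.injective (Fin.ext e)))

/-- For every `k ≥ 3` there are arbitrarily long permutations that are bicrucial with respect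
to `k`-th powers. -/
theorem result (k : ℕ) (hk : 3 ≤ k) (N : ℕ) :
    ∃ n, N ≤ n ∧ ∃ σ : Equiv.Perm (Fin n), Bicrucial k σ := by
  set m := 2 ^ (N + 1) with hmdef
  have hN : N + 1 < m := Nat.lt_two_pow_self
  have hm : 2 ≤ m := by omega
  have ht : Bic.tm m = 1 := Bic.tm_pow _
  have hlen : N + 2 ≤ Bic.len k m := by
    have h1 : 1 * Bic.NN k m ≤ 2 * k * Bic.NN k m := Nat.mul_le_mul_right _ (by omega)
    have h2 : Bic.NN k m = 2 * k + 4 * m - 3 := rfl
    unfold Bic.len
    omega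
  let F : Fin (Bic.len k m) → ℕ := fun p => Bic.f k m p
  have hF : Function.Injective F := fun p q e => Fin.ext (Bic.f_inj k m p q p.2 q.2 e)
  have hmono : StrictMono (F ∘ Tuple.sort F) :=
    (Tuple.monotone_sort F).strictMono_of_injective (hF.comp (Tuple.sort F).injective)
  have key : ∀ p q, (Tuple.sort F).symm p < (Tuple.sort F).symm q ↔ F p < F q := by
    intro p q
    rw [← hmono.lt_iff_lt]
    simp
  refine ⟨Bic.len k m, by omega, (Tuple.sort F).symm, fun h => ?_, fun τ h => ?_, fun τ h => ?_⟩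
  · obtain ⟨s, l, hl, hs, h⟩ := h
    have blk : ∀ r < k, ∀ a < l, s + r * l + a < Bic.len k m := by
      intro r hr a ha
      have := Nat.mul_le_mul_right l (Nat.succ_le_of_lt hr)
      rw [Nat.succ_mul] at this
      omega
    refine Bic.nopow k m hk hm ht ⟨s, l, hl, hs, fun r hr r' hr' a ha b hb => ?_⟩
    have := h r hr r' hr' a ha b hb
    simp only [entry, dif_pos (blk r hr a ha), dif_pos (blk r hr b hb), dif_pos (blk r' hr' a ha),
      dif_pos (blk r' hr' b hb), ← Fin.lt_def, key] at this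
    exact this
  · refine Bic.left k m hk hm (entry τ) (fun p hp q hq e => ?_)
      (entry_ne τ 0 1 (by omega) (by omega) (by omega))
    simp only [entry, dif_pos (Nat.succ_lt_succ hp), dif_pos (Nat.succ_lt_succ hq)]
    exact (h ⟨p, hp⟩ ⟨q, hq⟩).2 ((key _ _).2 e)
  · refine Bic.right k m hk hm ht (entry τ) (fun p hp q hq e => ?_)
      (entry_ne τ _ _ (by omega) (by omega) (by omega))
    simp only [entry, dif_pos (Nat.lt_succ_of_lt hp), dif_pos (Nat.lt_succ_of_lt hq)]
    exact (h ⟨p, hp⟩ ⟨q, hq⟩).2 ((key _ _).2 e)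

end Pool.Agent.Results.MP_8f6629_co.AllK
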